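import Mathlib

/-!
# The two-sided exponential law and its isoperimetric profile
-/

set_option autoImplicit false

namespace Pool.Agent.R755.Iso

open MeasureTheory Set Filter Topology
open scoped ENNReal NNReal

/-- The two-sided exponential law, with density `exp (-|x|) / 2`. -/
noncomputable def lap : Measure ℝ :=
  (volume : Measure ℝ).withDensity (fun x => ENNReal.ofReal (Real.exp (-|x|) / 2))

theorem dens_meas : Measurable (fun x : ℝ => ENNReal.ofReal (Real.exp (-|x|) / 2)) := by fun_prop

theorem lap_apply {A : Set ℝ} (hA : MeasurableSet A) :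
    lap A = ∫⁻ x in A, ENNReal.ofReal (Real.exp (-|x|) / 2) := by
  rw [lap, withDensity_apply _ hA]

/-- upper tail -/
theorem lap_Ioi {u : ℝ} (hu : 0 ≤ u) : lap (Ioi u) = ENNReal.ofReal (Real.exp (-u) / 2) := by
  rw [lap_apply measurableSet_Ioi]
  have h1 : ∫⁻ x in Ioi u, ENNReal.ofReal (Real.exp (-|x|) / 2) =
      ∫⁻ x in Ioi u, ENNReal.ofReal (Real.exp (-x) / 2) := by
    apply setLIntegral_congr_fun measurableSet_Ioi
    intro x hx
    have : (0 : ℝ) ≤ x := hu.trans (le_of_lt hx)
    simp only [abs_of_nonneg this]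
  rw [h1, ← ofReal_integral_eq_lintegral_ofReal]
  · rw [integral_div, integral_exp_neg_Ioi]
  · exact (integrableOn_exp_neg_Ioi u).div_const 2
  · filter_upwards with x
    positivity

/-- lower tail -/
theorem lap_Iic {u : ℝ} (hu : u ≤ 0) : lap (Iic u) = ENNReal.ofReal (Real.exp u / 2) := by
  rw [lap_apply measurableSet_Iic]
  have h1 : ∫⁻ x in Iic u, ENNReal.ofReal (Real.exp (-|x|) / 2) =
      ∫⁻ x in Iic u, ENNReal.ofReal (Real.exp x / 2) := by
    apply setLIntegral_congr_fun measurableSet_Iic
    intro x hx
    have : x ≤ 0 := le_trans hx hu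
    simp only [abs_of_nonpos this, neg_neg]
  rw [h1, ← ofReal_integral_eq_lintegral_ofReal]
  · rw [integral_div, integral_exp_Iic]
  · exact (integrableOn_exp_Iic u).div_const 2
  · filter_upwards with x
    positivity

theorem lap_ac : lap ≪ volume := withDensity_absolutelyContinuous _ _

theorem lap_univ : lap univ = 1 := by
  have h1 : (univ : Set ℝ) = Iic 0 ∪ Ioi 0 := by
    rw [Iic_union_Ioi]
  have hd : Disjoint (Iic (0:ℝ)) (Ioi 0) := by
    rw [Set.disjoint_left]
    intro x hx hx'
    have h2 : x ≤ 0 := hx
    have h3 : 0 < x := hx'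
    linarith
  rw [h1, measure_union hd measurableSet_Ioi, lap_Iic le_rfl, lap_Ioi le_rfl, ← ENNReal.ofReal_add (by positivity) (by positivity)]
  norm_num

instance : IsProbabilityMeasure lap := ⟨lap_univ⟩

/-- tail function -/
theorem lap_Ioi_neg {u : ℝ} (hu : u ≤ 0) : lap (Ioi u) = ENNReal.ofReal (1 - Real.exp u / 2) := by
  have h1 : Ioi u = (Iic u)ᶜ := by rw [compl_Iic]
  rw [h1, measure_compl measurableSet_Iic (measure_ne_top _ _), lap_univ, lap_Iic hu,
    ← ENNReal.ofReal_one, ← ENNReal.ofReal_sub _ (by positivity)]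

/-- shifting a piece of the positive half-line towards the origin -/
theorem shift_pos (B : Set ℝ) (hB : MeasurableSet B) (s : ℝ) (hs : 0 ≤ s) (h : ∀ x ∈ B, s ≤ x) :
    lap {x | x + s ∈ B} = ENNReal.ofReal (Real.exp s) * lap B := by
  have hm : MeasurableSet {x : ℝ | x + s ∈ B} := (measurable_id.add_const s) hB
  rw [lap_apply hm, lap_apply hB, ← lintegral_indicator hm, ← lintegral_indicator hB,
    ← lintegral_const_mul _ (dens_meas.indicator hB)]
  rw [← lintegral_add_right_eq_self (fun x => ENNReal.ofReal (Real.exp s) *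
    B.indicator (fun x => ENNReal.ofReal (Real.exp (-|x|) / 2)) x) s]
  apply lintegral_congr
  intro x
  by_cases hx : x + s ∈ B
  · have h1 := h _ hx
    have hx' : x ∈ {x : ℝ | x + s ∈ B} := hx
    rw [indicator_of_mem hx, indicator_of_mem hx', ← ENNReal.ofReal_mul (Real.exp_pos _).le]
    congr 1
    rw [abs_of_nonneg (by linarith), abs_of_nonneg (by linarith), ← mul_div_assoc, ← Real.exp_add]
    congr 2
    ring
  · have hx' : x ∉ {x : ℝ | x + s ∈ B} := hx
    rw [indicator_of_notMem hx, indicator_of_notMem hx', mul_zero]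

/-- shifting a piece of the negative half-line towards the origin -/
theorem shift_neg (B : Set ℝ) (hB : MeasurableSet B) (s : ℝ) (hs : 0 ≤ s) (h : ∀ x ∈ B, x ≤ -s) :
    lap {x | x - s ∈ B} = ENNReal.ofReal (Real.exp s) * lap B := by
  have hm : MeasurableSet {x : ℝ | x - s ∈ B} := (measurable_id.sub_const s) hB
  rw [lap_apply hm, lap_apply hB, ← lintegral_indicator hm, ← lintegral_indicator hB,
    ← lintegral_const_mul _ (dens_meas.indicator hB)]
  rw [← lintegral_sub_right_eq_self (fun x => ENNReal.ofReal (Real.exp s) *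
    B.indicator (fun x => ENNReal.ofReal (Real.exp (-|x|) / 2)) x) s]
  apply lintegral_congr
  intro x
  by_cases hx : x - s ∈ B
  · have h1 := h _ hx
    have hx' : x ∈ {x : ℝ | x - s ∈ B} := hx
    rw [indicator_of_mem hx, indicator_of_mem hx', ← ENNReal.ofReal_mul (Real.exp_pos _).le]
    congr 1
    rw [abs_of_nonpos (by linarith), abs_of_nonpos (by linarith), ← mul_div_assoc, ← Real.exp_add]
    congr 2
    ring
  · have hx' : x ∉ {x : ℝ | x - s ∈ B} := hx
    rw [indicator_of_notMem hx, indicator_of_notMem hx', mul_zero]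

/-- enlarging a set at distance at least `s` from the origin -/
theorem enlarge (B : Set ℝ) (hB : MeasurableSet B) (s : ℝ) (hs : 0 < s) (h : ∀ x ∈ B, s ≤ |x|) :
    Real.exp s * (lap B).toReal ≤ (lap (Metric.thickening s B)).toReal := by
  have key : ∀ s' : ℝ, 0 < s' → s' < s →
      Real.exp s' * (lap B).toReal ≤ (lap (Metric.thickening s B)).toReal := by
    intro s' h0 h1
    set P := B ∩ Ioi 0 with hP
    set Q := B ∩ Iio 0 with hQ
    have hPm : MeasurableSet P := hB.inter measurableSet_Ioi
    have hQm : MeasurableSet Q := hB.inter measurableSet_Iio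
    have hPs : ∀ x ∈ P, s ≤ x := by
      intro x hx
      have := h x hx.1
      rwa [abs_of_pos hx.2] at this
    have hQs : ∀ x ∈ Q, x ≤ -s := by
      intro x hx
      have h2 := h x hx.1
      have h3 : x < 0 := hx.2
      rw [abs_of_neg h3] at h2
      linarith
    have hBPQ : B = P ∪ Q := by
      ext x
      constructor
      · intro hx
        have h2 := h x hx
        rcases lt_trichotomy x 0 with h3 | h3 | h3
        · right; exact ⟨hx, h3⟩
        · rw [h3, abs_zero] at h2; linarith
        · left; exact ⟨hx, h3⟩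
      · rintro (hx | hx)
        · exact hx.1
        · exact hx.1
    have hd : Disjoint P Q := by
      rw [Set.disjoint_left]
      intro x hx hx'
      have h2 : 0 < x := hx.2
      have h3 : x < 0 := hx'.2
      linarith
    have e1 := shift_pos P hPm s' h0.le (fun x hx => h1.le.trans (hPs x hx))
    have e2 := shift_neg Q hQm s' h0.le (fun x hx => by have := hQs x hx; linarith)
    have hd2 : Disjoint {x | x + s' ∈ P} {x | x - s' ∈ Q} := by
      rw [Set.disjoint_left]
      intro x hx hx'
      have h2 := hPs _ hx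
      have h3 := hQs _ hx'
      linarith
    have hm2 : MeasurableSet {x : ℝ | x - s' ∈ Q} := (measurable_id.sub_const s') hQm
    have hsub : {x | x + s' ∈ P} ∪ {x | x - s' ∈ Q} ⊆ Metric.thickening s B := by
      rintro x (hx | hx)
      · rw [Metric.mem_thickening_iff]
        refine ⟨x + s', hx.1, ?_⟩
        rw [Real.dist_eq, show x - (x + s') = -s' by ring, abs_neg, abs_of_pos h0]
        exact h1
      · rw [Metric.mem_thickening_iff]
        refine ⟨x - s', hx.1, ?_⟩
        rw [Real.dist_eq, show x - (x - s') = s' by ring, abs_of_pos h0]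
        exact h1
    have e3 : ENNReal.ofReal (Real.exp s') * lap B ≤ lap (Metric.thickening s B) := by
      calc ENNReal.ofReal (Real.exp s') * lap B
          = ENNReal.ofReal (Real.exp s') * lap P + ENNReal.ofReal (Real.exp s') * lap Q := by
            rw [← mul_add, ← measure_union hd hQm, ← hBPQ]
        _ = lap ({x | x + s' ∈ P} ∪ {x | x - s' ∈ Q}) := by
            rw [measure_union hd2 hm2, e1, e2]
        _ ≤ _ := measure_mono hsub
    have e4 := ENNReal.toReal_mono (measure_ne_top _ _) e3
    rwa [ENNReal.toReal_mul, ENNReal.toReal_ofReal (Real.exp_pos _).le] at e4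
  have hcont : Tendsto (fun s' : ℝ => Real.exp s' * (lap B).toReal) (𝓝[<] s)
      (𝓝 (Real.exp s * (lap B).toReal)) := by
    apply Tendsto.mono_left _ nhdsWithin_le_nhds
    exact ((Real.continuous_exp.mul continuous_const).tendsto s)
  apply le_of_tendsto hcont
  have : Ioo 0 s ∈ 𝓝[<] s := Ioo_mem_nhdsLT hs
  filter_upwards [this] with s' hs'
  exact key s' hs'.1 hs'.2

/-- the key inequality for neighbourhoods -/
theorem key (A : Set ℝ) (hA : MeasurableSet A) (hne : A.Nonempty) (r : ℝ) (hr : 0 < r) :
    r * min (lap A).toReal (1 - (lap (Metric.thickening r A)).toReal) ≤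
      (lap (Metric.thickening r A)).toReal - (lap A).toReal := by
  set d := Metric.infDist (0 : ℝ) A with hd
  have hd0 : 0 ≤ d := Metric.infDist_nonneg
  set c := min r d with hc
  have hc0 : 0 ≤ c := le_min hr.le hd0
  have hcr : c ≤ r := min_le_left _ _
  set D := (Metric.thickening r A)ᶜ with hD
  have hTm : MeasurableSet (Metric.thickening r A) := Metric.isOpen_thickening.measurableSet
  have hDm : MeasurableSet D := hTm.compl
  have hAd : ∀ x ∈ A, c ≤ |x| := by
    intro x hx
    have h1 : d ≤ dist 0 x := Metric.infDist_le_dist_of_mem hx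
    rw [Real.dist_eq, zero_sub, abs_neg] at h1
    exact (min_le_right _ _).trans h1
  have hDd : ∀ x ∈ D, r - c ≤ |x| := by
    intro x hx
    have h1 : r ≤ Metric.infDist x A := by
      by_contra hlt
      push Not at hlt
      exact hx ((Metric.mem_thickening_iff_infDist_lt hne).mpr hlt)
    have h2 : Metric.infDist x A ≤ Metric.infDist 0 A + dist x 0 :=
      Metric.infDist_le_infDist_add_dist
    rw [Real.dist_eq, sub_zero] at h2
    rcases le_total r d with h3 | h3
    · rw [hc, min_eq_left h3, sub_self]; exact abs_nonneg x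
    · rw [hc, min_eq_right h3]; linarith
  -- enlarged sets
  have hAB : ∀ a ∈ A, ∀ z ∈ D, r ≤ dist a z := by
    intro a ha z hz
    by_contra hlt
    push Not at hlt
    apply hz
    rw [Metric.mem_thickening_iff]
    exact ⟨a, ha, by rwa [dist_comm]⟩
  have h1 : ∀ (B : Set ℝ), MeasurableSet B → ∀ s : ℝ, 0 ≤ s → (∀ x ∈ B, s ≤ |x|) →
      Real.exp s * (lap B).toReal ≤ (lap (B ∪ Metric.thickening s B)).toReal := by
    intro B hB s hs h
    rcases hs.eq_or_lt with h0 | h0
    · rw [← h0, Real.exp_zero, one_mul]
      exact ENNReal.toReal_mono (measure_ne_top _ _) (measure_mono subset_union_left)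
    · exact (enlarge B hB s h0 h).trans
        (ENNReal.toReal_mono (measure_ne_top _ _) (measure_mono subset_union_right))
  have hA1 := h1 A hA c hc0 hAd
  have hD1 := h1 D hDm (r - c) (by linarith) hDd
  have hdis : Disjoint (A ∪ Metric.thickening c A) (D ∪ Metric.thickening (r - c) D) := by
    rw [Set.disjoint_left]
    rintro x (hx | hx) (hx' | hx')
    · have := hAB x hx x hx'
      rw [dist_self] at this
      linarith
    · obtain ⟨z, hz, hxz⟩ := Metric.mem_thickening_iff.mp hx'
      have := hAB x hx z hz
      linarith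
    · obtain ⟨a, ha, hxa⟩ := Metric.mem_thickening_iff.mp hx
      have := hAB a ha x hx'
      rw [dist_comm] at this
      linarith
    · obtain ⟨a, ha, hxa⟩ := Metric.mem_thickening_iff.mp hx
      obtain ⟨z, hz, hxz⟩ := Metric.mem_thickening_iff.mp hx'
      have h2 := hAB a ha z hz
      have h3 := dist_triangle_left a z x
      linarith
  have hm2 : MeasurableSet (D ∪ Metric.thickening (r - c) D) :=
    hDm.union Metric.isOpen_thickening.measurableSet
  have h2 : lap (A ∪ Metric.thickening c A) + lap (D ∪ Metric.thickening (r - c) D) ≤ 1 := by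
    rw [← measure_union hdis hm2]
    exact prob_le_one
  have h3 := ENNReal.toReal_mono ENNReal.one_ne_top h2
  rw [ENNReal.toReal_add (measure_ne_top _ _) (measure_ne_top _ _), ENNReal.toReal_one] at h3
  have h4 : (lap D).toReal = 1 - (lap (Metric.thickening r A)).toReal :=
    probReal_compl_eq_one_sub hTm
  rw [h4] at hD1
  set t := (lap A).toReal with ht
  set q := (lap (Metric.thickening r A)).toReal with hq
  have ht0 : 0 ≤ t := ENNReal.toReal_nonneg
  have hq1 : q ≤ 1 := by
    have := ENNReal.toReal_mono ENNReal.one_ne_top (prob_le_one (μ := lap) (s := Metric.thickening r A))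
    simpa using this
  have e1 : (1 + c) * t ≤ Real.exp c * t := by
    apply mul_le_mul_of_nonneg_right _ ht0
    linarith [Real.add_one_le_exp c]
  have e2 : (1 + (r - c)) * (1 - q) ≤ Real.exp (r - c) * (1 - q) := by
    apply mul_le_mul_of_nonneg_right _ (by linarith)
    linarith [Real.add_one_le_exp (r - c)]
  have e3 : c * min t (1 - q) ≤ c * t := mul_le_mul_of_nonneg_left (min_le_left _ _) hc0
  have e4 : (r - c) * min t (1 - q) ≤ (r - c) * (1 - q) :=
    mul_le_mul_of_nonneg_left (min_le_right _ _) (by linarith)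
  nlinarith

end Pool.Agent.R755.Iso
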