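import Pool.Agent.R755.Iso.Lap

set_option autoImplicit false

namespace Pool.Agent.R755.Iso

open MeasureTheory Set Filter Topology
open scoped ENNReal NNReal

theorem lint_lap (f : ℝ → ℝ≥0∞) (hf : Measurable f) (S : Set ℝ) (hS : MeasurableSet S) :
    ∫⁻ x in S, f x ∂lap = ∫⁻ x in S, ENNReal.ofReal (Real.exp (-|x|) / 2) * f x := by
  rw [lap, restrict_withDensity hS, lintegral_withDensity_eq_lintegral_mul _ dens_meas hf]
  rfl

theorem diag_tail {s : ℝ} (hs : 0 ≤ s) :
    (lap.prod lap) {p | s < p.1 + p.2} = ENNReal.ofReal (Real.exp (-s) * (2 + s) / 4) := by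
  have hm : MeasurableSet {p : ℝ × ℝ | s < p.1 + p.2} :=
    measurableSet_lt measurable_const (measurable_fst.add measurable_snd)
  rw [Measure.prod_apply hm]
  have hpre : ∀ x : ℝ, Prod.mk x ⁻¹' {p : ℝ × ℝ | s < p.1 + p.2} = Ioi (s - x) := by
    intro x
    ext y
    simp only [mem_preimage, mem_ofPred_eq, mem_Ioi]
    constructor <;> intro h <;> linarith
  simp_rw [hpre]
  have hfm : Measurable fun x : ℝ => lap (Ioi (s - x)) := by
    have := measurable_measure_prodMk_left (ν := lap) hm
    simp_rw [hpre] at this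
    exact this
  have hU : (univ : Set ℝ) = Iic 0 ∪ (Ioc 0 s ∪ Ioi s) := by
    rw [Ioc_union_Ioi_eq_Ioi hs, Iic_union_Ioi]
  rw [← setLIntegral_univ, hU, lintegral_union (measurableSet_Ioc.union measurableSet_Ioi),
    lintegral_union measurableSet_Ioi]
  rotate_left
  · rw [Set.disjoint_left]
    intro x hx hx'
    exact not_lt.mpr hx.2 hx'
  · rw [Set.disjoint_left]
    rintro x hx (hx' | hx')
    · exact not_lt.mpr hx hx'.1
    · exact not_lt.mpr hx (hs.trans_lt hx')
  -- first piece
  have p1 : ∫⁻ x in Iic 0, lap (Ioi (s - x)) ∂lap = ENNReal.ofReal (Real.exp (-s) / 8) := by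
    rw [lint_lap _ hfm _ measurableSet_Iic]
    have h1 : ∫⁻ x in Iic (0:ℝ), ENNReal.ofReal (Real.exp (-|x|) / 2) * lap (Ioi (s - x)) =
        ∫⁻ x in Iic (0:ℝ), ENNReal.ofReal (Real.exp (-s) / 4 * Real.exp (2 * x)) := by
      apply setLIntegral_congr_fun measurableSet_Iic
      intro x hx
      have hx' : x ≤ 0 := hx
      simp only
      rw [lap_Ioi (by linarith), ← ENNReal.ofReal_mul (by positivity), abs_of_nonpos hx']
      congr 1
      rw [show Real.exp (-(-x)) / 2 * (Real.exp (-(s - x)) / 2) =
        (Real.exp (-(-x)) * Real.exp (-(s - x))) / 4 by ring, ← Real.exp_add,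
        show Real.exp (-s) / 4 * Real.exp (2 * x) = (Real.exp (-s) * Real.exp (2 * x)) / 4 by ring,
        ← Real.exp_add]
      congr 2
      ring
    rw [h1, ← ofReal_integral_eq_lintegral_ofReal]
    · rw [integral_const_mul, integral_exp_mul_Iic (by norm_num : (0:ℝ) < 2)]
      congr 1
      rw [mul_zero, Real.exp_zero]
      ring
    · exact (integrableOn_exp_mul_Iic (by norm_num : (0:ℝ) < 2) 0).const_mul _
    · filter_upwards with x
      positivity
  have p2 : ∫⁻ x in Ioc 0 s, lap (Ioi (s - x)) ∂lap = ENNReal.ofReal (s * Real.exp (-s) / 4) := by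
    rw [lint_lap _ hfm _ measurableSet_Ioc]
    have h1 : ∫⁻ x in Ioc (0:ℝ) s, ENNReal.ofReal (Real.exp (-|x|) / 2) * lap (Ioi (s - x)) =
        ∫⁻ x in Ioc (0:ℝ) s, ENNReal.ofReal (Real.exp (-s) / 4) := by
      apply setLIntegral_congr_fun measurableSet_Ioc
      intro x hx
      have hx' : 0 ≤ x := hx.1.le
      have hx2 : x ≤ s := hx.2
      simp only
      rw [lap_Ioi (by linarith), ← ENNReal.ofReal_mul (by positivity), abs_of_nonneg hx']
      congr 1
      rw [show Real.exp (-x) / 2 * (Real.exp (-(s - x)) / 2) =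
        (Real.exp (-x) * Real.exp (-(s - x))) / 4 by ring, ← Real.exp_add]
      congr 2
      ring
    rw [h1, setLIntegral_const, Real.volume_Ioc, sub_zero, ← ENNReal.ofReal_mul (by positivity)]
    congr 1
    ring
  have p3 : ∫⁻ x in Ioi s, lap (Ioi (s - x)) ∂lap = ENNReal.ofReal (3 * Real.exp (-s) / 8) := by
    rw [lint_lap _ hfm _ measurableSet_Ioi]
    have h1 : ∫⁻ x in Ioi s, ENNReal.ofReal (Real.exp (-|x|) / 2) * lap (Ioi (s - x)) =
        ∫⁻ x in Ioi s, ENNReal.ofReal (1 / 2 * Real.exp (-x) - Real.exp s / 4 * Real.exp ((-2) * x)) := by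
      apply setLIntegral_congr_fun measurableSet_Ioi
      intro x hx
      have hx' : s < x := hx
      have hx0 : 0 ≤ x := hs.trans hx'.le
      simp only
      rw [lap_Ioi_neg (by linarith), ← ENNReal.ofReal_mul (by positivity), abs_of_nonneg hx0]
      congr 1
      have e1 : Real.exp s * Real.exp (-2 * x) = Real.exp (-x) * Real.exp (s - x) := by
        rw [← Real.exp_add, ← Real.exp_add]; congr 1; ring
      linear_combination (1 / 4 : ℝ) * e1
    rw [h1, ← ofReal_integral_eq_lintegral_ofReal]
    · rw [integral_sub, integral_const_mul, integral_const_mul, integral_exp_neg_Ioi,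
        integral_exp_mul_Ioi (by norm_num : (-2:ℝ) < 0)]
      · congr 1
        have e1 : Real.exp s * Real.exp (-2 * s) = Real.exp (-s) := by
          rw [← Real.exp_add]; congr 1; ring
        linear_combination (-1 / 8 : ℝ) * e1
      · exact (integrableOn_exp_neg_Ioi s).const_mul _
      · exact (integrableOn_exp_mul_Ioi (by norm_num : (-2:ℝ) < 0) s).const_mul _
    · exact ((integrableOn_exp_neg_Ioi s).const_mul _).sub
        ((integrableOn_exp_mul_Ioi (by norm_num : (-2:ℝ) < 0) s).const_mul _)
    · rw [EventuallyLE, ae_restrict_iff' measurableSet_Ioi]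
      filter_upwards with x hx
      have hx' : s < x := hx
      have e1 : Real.exp s * Real.exp (-2 * x) = Real.exp (-x) * Real.exp (s - x) := by
        rw [← Real.exp_add, ← Real.exp_add]; congr 1; ring
      have e2 : Real.exp (s - x) ≤ 1 := by
        rw [Real.exp_le_one_iff]; linarith
      have e3 := Real.exp_pos (-x)
      simp only [Pi.zero_apply]
      nlinarith
  rw [p1, p2, p3, ← ENNReal.ofReal_add (by positivity) (by positivity),
    ← ENNReal.ofReal_add (by positivity) (by positivity)]
  congr 1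
  ring

end Pool.Agent.R755.Iso
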